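import Pool.Agent.Helper85.CR.Goals

/-!
# Project CR (MP_bdaf95_co), packet PCNT
-/

set_option autoImplicit false

namespace Pool.Agent.Helper18.CR

open Pool.Agent.Helper85.CR

section
variable {V : Type} {G : SimpleGraph V} {a b c d : V}

theorem adj_ss (u v : V) : (planarize G a b c d).Adj (some u) (some v) ↔
    G.Adj u v ∧ s(u, v) ≠ s(a, c) ∧ s(u, v) ≠ s(b, d) := by
  unfold planarize
  rw [SimpleGraph.fromRel_adj]
  constructor
  · rintro ⟨_, h | h⟩
    · exact h
    · obtain ⟨h1, h2, h3⟩ := h
      rw [Sym2.eq_swap] at h2 h3
      exact ⟨h1.symm, h2, h3⟩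
  · intro h
    exact ⟨fun e => h.1.ne (Option.some.inj e), Or.inl h⟩

theorem adj_ns (v : V) : (planarize G a b c d).Adj none (some v) ↔
    v = a ∨ v = b ∨ v = c ∨ v = d := by
  unfold planarize
  rw [SimpleGraph.fromRel_adj]
  constructor
  · rintro ⟨_, h | h⟩
    · exact h
    · exact h.elim
  · intro h
    exact ⟨by simp, Or.inl h⟩

theorem edge_eq : (planarize G a b c d).edgeSet =
    Sym2.map some '' (G.edgeSet \ {s(a, c), s(b, d)}) ∪
      (fun v : V => s(none, some v)) '' {a, b, c, d} := by
  ext e
  induction e using Sym2.ind with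
  | _ x y =>
    rw [SimpleGraph.mem_edgeSet]
    constructor
    · intro h
      rcases x with _ | x
      · rcases y with _ | y
        · exact absurd rfl h.ne
        · right
          rw [adj_ns] at h
          exact ⟨y, by simpa using h, rfl⟩
      · rcases y with _ | y
        · right
          have h' := (adj_ns x).1 h.symm
          exact ⟨x, by simpa using h', Sym2.eq_swap⟩
        · left
          rw [adj_ss] at h
          exact ⟨s(x, y), ⟨h.1, by
            rintro (h1 | h1)
            · exact h.2.1 h1
            · exact h.2.2 h1⟩, rfl⟩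
    · rintro (⟨e, ⟨he, he'⟩, h⟩ | ⟨v, hv, h⟩)
      · induction e using Sym2.ind with
        | _ u v =>
          have hadj : (planarize G a b c d).Adj (some u) (some v) := by
            rw [adj_ss]
            exact ⟨he, fun h1 => he' (Or.inl h1), fun h1 => he' (Or.inr h1)⟩
          rw [← SimpleGraph.mem_edgeSet, ← h]
          exact hadj
      · have hadj : (planarize G a b c d).Adj none (some v) := by
          rw [adj_ns]
          simpa using hv
        rw [← SimpleGraph.mem_edgeSet, ← h]
        exact hadj

end

theorem gPCNT : StmtPCNT := by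
  intro V _ G a b c d hab had hcb hcd hac hbd
  have hfin : G.edgeSet.Finite := Set.toFinite _
  rw [edge_eq, Set.ncard_union_eq]
  · rw [Set.ncard_image_of_injective _ (Sym2.map.injective (Option.some_injective V)),
      Set.ncard_image_of_injective]
    · have h1 : s(a, c) ≠ s(b, d) := by
        intro h
        rcases Sym2.eq_iff.1 h with ⟨h1, -⟩ | ⟨h1, -⟩
        · exact hab h1
        · exact had h1
      have h2 : ({s(a, c), s(b, d)} : Set (Sym2 V)).ncard = 2 := Set.ncard_pair h1
      have h3 : ({s(a, c), s(b, d)} : Set (Sym2 V)) ⊆ G.edgeSet := by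
        rintro e (rfl | rfl)
        · exact hac
        · exact hbd
      have h4 := Set.ncard_sdiff_add_ncard_of_subset h3 hfin
      have h5 : ({a, b, c, d} : Set V).ncard = 4 := by
        rw [Set.ncard_insert_of_notMem, Set.ncard_insert_of_notMem, Set.ncard_pair hcd]
        · rintro (h | h)
          · exact hcb h.symm
          · exact hbd.ne h
        · rintro (h | h | h)
          · exact hab h
          · exact hac.ne h
          · exact had h
      omega
    · intro u v h
      rcases Sym2.eq_iff.1 h with ⟨-, h1⟩ | ⟨h1, -⟩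
      · exact Option.some.inj h1
      · exact absurd h1 (by simp)
  · rw [Set.disjoint_left]
    rintro _ ⟨e, -, rfl⟩ ⟨v, -, h⟩
    induction e using Sym2.ind with
    | _ x y =>
      rw [Sym2.map_mk] at h
      rcases Sym2.eq_iff.1 h with ⟨h1, -⟩ | ⟨h1, -⟩ <;> simp at h1

end Pool.Agent.Helper18.CR
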